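import Pool.Agent.H8.UB.Targets

/-!
# MP_404602_al, row MOC: the category of finitely generated modules
-/

open CategoryTheory

namespace Pool.Agent.H8.UB

open Pool.Agent.H56.UDs

section

variable (S : Type) [Ring S]

theorem fgm_ext {M N : FGModuleCat.{0} S} {f g : M ⟶ N} (h : ∀ x : M, f.hom.hom x = g.hom.hom x) :
    f = g :=
  FGModuleCat.hom_ext (LinearMap.ext h)

theorem coh_fgm : Coh (FGModuleCat.{0} S) where
  sum X Y := by
    refine ⟨FGModuleCat.of S (X × Y), FGModuleCat.ofHom (LinearMap.inl S X Y),
      FGModuleCat.ofHom (LinearMap.inr S X Y), FGModuleCat.ofHom (LinearMap.fst S X Y),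
      FGModuleCat.ofHom (LinearMap.snd S X Y), ?_, ?_, ?_, ?_⟩
    · exact fgm_ext S fun x => rfl
    · exact fgm_ext S fun x => rfl
    · exact fgm_ext S fun x => rfl
    · exact fgm_ext S fun x => rfl
  wcok {X Y} h := by
    refine ⟨FGModuleCat.of S (Y ⧸ LinearMap.range h.hom.hom),
      FGModuleCat.ofHom (LinearMap.range h.hom.hom).mkQ, ?_, fun {M} u hu => ?_⟩
    · refine fgm_ext S fun x => ?_
      exact (Submodule.Quotient.mk_eq_zero _).2 ⟨x, rfl⟩
    · refine ⟨FGModuleCat.ofHom ((LinearMap.range h.hom.hom).liftQ u.hom.hom ?_), ?_⟩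
      · rintro _ ⟨x, rfl⟩
        exact congrArg (fun t => t.hom.hom x) hu
      · exact fgm_ext S fun x => rfl

instance uf_add : (UF S).Additive where
  map_add := rfl

/-- the `n`-th power of the forgetful functor -/
def PF (n : ℕ) : FGModuleCat.{0} S ⥤ AddCommGrpCat.{0} where
  obj M := AddCommGrpCat.of (Fin n → M)
  map f := AddCommGrpCat.ofHom
    { toFun := fun x i => f.hom.hom (x i)
      map_zero' := funext fun _ => map_zero f.hom.hom
      map_add' := fun x y => funext fun i => map_add f.hom.hom (x i) (y i) }
  map_id _ := rfl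
  map_comp _ _ := rfl

instance pf_add (n : ℕ) : (PF S n).Additive where
  map_add := rfl

theorem pf_fp (n : ℕ) : IsFP (PF S n) := by
  refine ⟨inferInstance, FGModuleCat.of S (Fin n → S), FGModuleCat.of S (Fin n → S), 0,
    (fun i => (Pi.single i (1 : S) : Fin n → S)), fun M y => ?_, fun M f => ?_⟩
  · refine ⟨FGModuleCat.ofHom (Fintype.linearCombination S (show Fin n → M from y)), ?_⟩
    funext i
    change Fintype.linearCombination S (show Fin n → M from y) (Pi.single i 1) = _
    rw [Fintype.linearCombination_apply_single, one_smul]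
  · constructor
    · intro h
      refine ⟨0, ?_⟩
      have h1 : f.hom.hom = 0 := by
        apply LinearMap.pi_ext'
        intro i
        apply LinearMap.ext_ring
        exact congrFun h i
      refine fgm_ext S fun x => ?_
      rw [h1]
      rfl
    · rintro ⟨g, rfl⟩
      funext i
      change g.hom.hom ((0 : FGModuleCat.of S (Fin n → S) ⟶ FGModuleCat.of S (Fin n → S)).hom.hom
        (Pi.single i 1)) = 0
      exact map_zero g.hom.hom

theorem uf_fp : IsFP (UF S) := by
  refine ⟨inferInstance, FGModuleCat.of S S, FGModuleCat.of S S, 0, (1 : S), fun M y => ?_,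
    fun M f => ?_⟩
  · refine ⟨FGModuleCat.ofHom (LinearMap.toSpanSingleton S M y), ?_⟩
    exact one_smul S (show (M : Type) from y)
  · constructor
    · intro h
      refine ⟨0, ?_⟩
      have h1 : f.hom.hom = 0 := LinearMap.ext_ring h
      refine fgm_ext S fun x => ?_
      rw [h1]
      rfl
    · rintro ⟨g, rfl⟩
      exact map_zero g.hom.hom

variable {S}

theorem pf_mem {T : (FGModuleCat.{0} S ⥤ AddCommGrpCat.{0}) → Prop} (hT : IsSerre T)
    (hU : T (UF S)) (n : ℕ) : T (PF S n) := by
  induction n with
  | zero => exact hT.zero _ (pf_fp S 0) fun M x => funext fun i => i.elim0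
  | succ n ih =>
    let i : PF S n ⟶ PF S (n + 1) :=
      { app := fun M => AddCommGrpCat.ofHom
          { toFun := fun x => (Fin.cons 0 x : Fin (n + 1) → M)
            map_zero' := by
              funext j
              refine Fin.cases ?_ (fun j => ?_) j
              · rfl
              · rfl
            map_add' := by
              intro x y
              funext j
              refine Fin.cases ?_ (fun j => ?_) j
              · exact (add_zero (0 : M)).symm
              · rfl }
        naturality := fun M N f => by
          apply AddCommGrpCat.hom_ext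
          apply AddMonoidHom.ext
          intro x
          funext j
          refine Fin.cases ?_ (fun j => ?_) j
          · exact (map_zero f.hom.hom).symm
          · rfl }
    let p : PF S (n + 1) ⟶ UF S :=
      { app := fun M => AddCommGrpCat.ofHom
          { toFun := fun x => (show Fin (n + 1) → M from x) 0
            map_zero' := rfl
            map_add' := fun _ _ => rfl }
        naturality := fun M N f => rfl }
    refine hT.ext _ _ _ i p ?_ ?_ ?_ (pf_fp S (n + 1)) ih hU
    · intro M x y hxy
      funext j
      exact congrFun hxy j.succ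
    · intro M y
      exact ⟨fun _ => y, rfl⟩
    · intro M x
      constructor
      · intro hx
        refine ⟨fun j => (show Fin (n + 1) → M from x) j.succ, ?_⟩
        funext j
        refine Fin.cases ?_ (fun j => ?_) j
        · exact hx.symm
        · rfl
      · rintro ⟨y, rfl⟩
        rfl

/-- the functor `Hom(M, -)` -/
def hmF (M : FGModuleCat.{0} S) : FGModuleCat.{0} S ⥤ AddCommGrpCat.{0} where
  obj N := AddCommGrpCat.of (M ⟶ N)
  map {N L} g := AddCommGrpCat.ofHom
    { toFun := fun f => f ≫ g
      map_zero' := Limits.zero_comp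
      map_add' := fun f f' => Preadditive.add_comp _ _ _ f f' g }
  map_id N := by
    apply AddCommGrpCat.hom_ext
    apply AddMonoidHom.ext
    intro f
    exact Category.comp_id f
  map_comp f g := by
    apply AddCommGrpCat.hom_ext
    apply AddMonoidHom.ext
    intro h
    exact (Category.assoc h f g).symm

instance (M : FGModuleCat.{0} S) : (hmF M).Additive where
  map_add {N L f g} := by
    apply AddCommGrpCat.hom_ext
    apply AddMonoidHom.ext
    intro h
    exact Preadditive.comp_add _ _ _ h f g

theorem hmF_fp (M : FGModuleCat.{0} S) : IsFP (hmF M) := by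
  refine ⟨inferInstance, M, M, 0, (𝟙 M : M ⟶ M), fun N y => ?_, fun N f => ?_⟩
  · exact ⟨y, Category.id_comp y⟩
  · constructor
    · intro h
      have h' : f = 0 := by
        have : (𝟙 M ≫ f : M ⟶ N) = 0 := h
        rwa [Category.id_comp] at this
      exact ⟨0, by rw [h']; exact Limits.comp_zero⟩
    · rintro ⟨g, rfl⟩
      change (𝟙 M ≫ (0 ≫ g) : M ⟶ N) = 0
      rw [Limits.zero_comp, Limits.comp_zero]

theorem hmF_mem {T : (FGModuleCat.{0} S ⥤ AddCommGrpCat.{0}) → Prop} (hT : IsSerre T)
    (hU : T (UF S)) (M : FGModuleCat.{0} S) : T (hmF M) := by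
  obtain ⟨n, f, hf⟩ := Module.Finite.exists_fin' S M
  let i : hmF M ⟶ PF S n :=
    { app := fun N => AddCommGrpCat.ofHom
        { toFun := fun (φ : M ⟶ N) (j : Fin n) => φ.hom.hom (f (Pi.single j 1))
          map_zero' := rfl
          map_add' := fun _ _ => rfl }
      naturality := fun _ _ _ => rfl }
  refine hT.sub (PF S n) (hmF M) i ?_ (hmF_fp M) (pf_mem hT hU n)
  intro N φ ψ h
  have h1 : (show M ⟶ N from φ).hom.hom ∘ₗ f = (show M ⟶ N from ψ).hom.hom ∘ₗ f := by
    apply LinearMap.pi_ext'
    intro j
    apply LinearMap.ext_ring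
    exact congrFun h j
  refine fgm_ext S fun x => ?_
  obtain ⟨y, rfl⟩ := hf x
  exact congrArg (fun t => t y) h1

theorem all_mem {T : (FGModuleCat.{0} S ⥤ AddCommGrpCat.{0}) → Prop} (hT : IsSerre T)
    (hU : T (UF S)) (F : FGModuleCat.{0} S ⥤ AddCommGrpCat.{0}) (hF : IsFP F) : T F := by
  obtain ⟨hadd, M, _, _, ξ, h1, _⟩ := id hF
  let p : hmF M ⟶ F :=
    { app := fun N => AddCommGrpCat.ofHom
        { toFun := fun f => (F.map f).hom ξ
          map_zero' := map_zero_ap F ξ
          map_add' := fun f f' => map_add_ap F f f' ξ }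
      naturality := fun N L g => by
        apply AddCommGrpCat.hom_ext
        apply AddMonoidHom.ext
        intro f
        exact map_comp_ap F f g ξ }
  exact hT.quo _ _ p (fun N y => h1 N y) hF (hmF_mem hT hU M)

end

theorem pf_MOC : T_MOC := fun S _ => ⟨coh_fgm S, uf_fp S, fun _ hT hU F hF => all_mem hT hU F hF⟩

end Pool.Agent.H8.UB
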