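import Pool.Agent.H8.UB.Defs

/-!
# MP_404602_al: the ring of given structure constants
-/

namespace Pool.Agent.H8.UB

variable {n : ℕ} {K : Type} [Field K] (s : SC n K)

instance : AddCommGroup (Al s) := inferInstanceAs (AddCommGroup (Fin n → K))
instance : Module K (Al s) := inferInstanceAs (Module K (Fin n → K))
instance : Module.Finite K (Al s) := inferInstanceAs (Module.Finite K (Fin n → K))

instance : Mul (Al s) := ⟨fun x y l => ∑ i, ∑ j, x i * y j * s.c i j l⟩
instance : One (Al s) := ⟨s.u⟩

theorem al_mul (x y : Al s) (l : Fin n) : (x * y) l = ∑ i, ∑ j, x i * y j * s.c i j l := rfl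
theorem al_one (l : Fin n) : (1 : Al s) l = s.u l := rfl
theorem al_add (x y : Al s) (l : Fin n) : (x + y) l = x l + y l := rfl
theorem al_zero (l : Fin n) : (0 : Al s) l = 0 := rfl
theorem al_smul (a : K) (x : Al s) (l : Fin n) : (a • x) l = a * x l := rfl

theorem al_ext {x y : Al s} (h : ∀ l, x l = y l) : x = y := funext h

theorem al_assoc1 (x y z : Al s) (l : Fin n) : (x * y * z) l =
    ∑ i, ∑ j, ∑ t, x i * y j * z t * ∑ p, s.c i j p * s.c p t l := by
  have h1 : (x * y * z) l = ∑ p, ∑ t, ∑ i, ∑ j, x i * y j * z t * (s.c i j p * s.c p t l) := by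
    rw [al_mul]
    refine Finset.sum_congr rfl fun p _ => Finset.sum_congr rfl fun t _ => ?_
    rw [al_mul, Finset.sum_mul, Finset.sum_mul]
    refine Finset.sum_congr rfl fun i _ => ?_
    rw [Finset.sum_mul, Finset.sum_mul]
    exact Finset.sum_congr rfl fun j _ => by ring
  rw [h1, Finset.sum_comm, Finset.sum_congr rfl fun t _ => Finset.sum_comm, Finset.sum_comm]
  refine Finset.sum_congr rfl fun i _ => ?_
  rw [Finset.sum_congr rfl fun t _ => Finset.sum_comm, Finset.sum_comm]
  refine Finset.sum_congr rfl fun j _ => Finset.sum_congr rfl fun t _ => ?_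
  rw [Finset.mul_sum]

theorem al_assoc2 (x y z : Al s) (l : Fin n) : (x * (y * z)) l =
    ∑ i, ∑ j, ∑ t, x i * y j * z t * ∑ p, s.c i j p * s.c p t l := by
  rw [al_mul]
  refine Finset.sum_congr rfl fun i _ => ?_
  have h1 : ∑ p, x i * (y * z) p * s.c i p l =
      ∑ p, ∑ j, ∑ t, x i * y j * z t * (s.c j t p * s.c i p l) := by
    refine Finset.sum_congr rfl fun p _ => ?_
    rw [al_mul, Finset.mul_sum, Finset.sum_mul]
    refine Finset.sum_congr rfl fun j _ => ?_
    rw [Finset.mul_sum, Finset.sum_mul]
    exact Finset.sum_congr rfl fun t _ => by ring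
  rw [h1, Finset.sum_comm]
  refine Finset.sum_congr rfl fun j _ => ?_
  rw [Finset.sum_comm]
  refine Finset.sum_congr rfl fun t _ => ?_
  rw [s.assoc i j t l, Finset.mul_sum]

noncomputable instance : Ring (Al s) :=
  { (inferInstance : AddCommGroup (Al s)) with
    mul := fun x y => x * y
    one := 1
    left_distrib := fun x y z => al_ext s fun l => by
      rw [al_add, al_mul, al_mul, al_mul, ← Finset.sum_add_distrib]
      refine Finset.sum_congr rfl fun i _ => ?_
      rw [← Finset.sum_add_distrib]
      refine Finset.sum_congr rfl fun j _ => ?_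
      rw [al_add]
      ring
    right_distrib := fun x y z => al_ext s fun l => by
      rw [al_add, al_mul, al_mul, al_mul, ← Finset.sum_add_distrib]
      refine Finset.sum_congr rfl fun i _ => ?_
      rw [← Finset.sum_add_distrib]
      refine Finset.sum_congr rfl fun j _ => ?_
      rw [al_add]
      ring
    zero_mul := fun x => al_ext s fun l => by
      rw [al_mul, al_zero]
      exact Finset.sum_eq_zero fun i _ => Finset.sum_eq_zero fun j _ => by
        rw [al_zero, zero_mul, zero_mul]
    mul_zero := fun x => al_ext s fun l => by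
      rw [al_mul, al_zero]
      exact Finset.sum_eq_zero fun i _ => Finset.sum_eq_zero fun j _ => by
        rw [al_zero, mul_zero, zero_mul]
    mul_assoc := fun x y z => al_ext s fun l => (al_assoc1 s x y z l).trans
      (al_assoc2 s x y z l).symm
    one_mul := fun x => al_ext s fun l => by
      rw [al_mul, Finset.sum_comm]
      have : ∀ i, ∑ j, (1 : Al s) j * x i * s.c j i l = x i * if l = i then 1 else 0 := by
        intro i
        rw [← s.one_mul i l, Finset.mul_sum]
        refine Finset.sum_congr rfl fun j _ => ?_
        rw [al_one]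
        ring
      rw [Finset.sum_congr rfl fun i _ => this i]
      simp
    mul_one := fun x => al_ext s fun l => by
      rw [al_mul]
      have : ∀ i, ∑ j, x i * (1 : Al s) j * s.c i j l = x i * if l = i then 1 else 0 := by
        intro i
        rw [← s.mul_one i l, Finset.mul_sum]
        refine Finset.sum_congr rfl fun j _ => ?_
        rw [al_one]
        ring
      rw [Finset.sum_congr rfl fun i _ => this i]
      simp
  }

theorem al_smul_mul (a : K) (x y : Al s) : (a • x) * y = a • (x * y) := al_ext s fun l => by
  rw [al_mul, al_smul, al_mul, Finset.mul_sum]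
  refine Finset.sum_congr rfl fun i _ => ?_
  rw [Finset.mul_sum]
  refine Finset.sum_congr rfl fun j _ => ?_
  rw [al_smul]
  ring

theorem al_mul_smul (a : K) (x y : Al s) : x * (a • y) = a • (x * y) := al_ext s fun l => by
  rw [al_mul, al_smul, al_mul, Finset.mul_sum]
  refine Finset.sum_congr rfl fun i _ => ?_
  rw [Finset.mul_sum]
  refine Finset.sum_congr rfl fun j _ => ?_
  rw [al_smul]
  ring

noncomputable instance : Algebra K (Al s) :=
  Algebra.ofModule (fun a x y => al_smul_mul s a x y) fun a x y => al_mul_smul s a x y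

/-- change of fields for the elements -/
def alMap {K' : Type} [Field K'] (f : K →+* K') : Al s →+* Al (s.map f) where
  toFun x l := f (x l)
  map_one' := rfl
  map_mul' x y := al_ext _ fun l => by
    change f ((x * y) l) = _
    rw [al_mul, al_mul, map_sum]
    refine Finset.sum_congr rfl fun i _ => ?_
    rw [map_sum]
    refine Finset.sum_congr rfl fun j _ => ?_
    rw [map_mul, map_mul]
    rfl
  map_zero' := al_ext _ fun _ => map_zero f
  map_add' x y := al_ext _ fun l => map_add f (x l) (y l)

end Pool.Agent.H8.UB
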