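import Pool.Agent.H8.UB.FUS

/-!
# MP_404602_al, row MOU: the uniserial dimension is the rank of a lattice
-/

open CategoryTheory

namespace Pool.Agent.H8.UB

open Pool.Agent.H56.UDs

theorem pf_MOU (hMOC : T_MOC) (hFUS : T_FUS.{0, 0, 1}) : T_MOU := by
  intro S _ _ hU
  have key : ∀ α : Ordinal.{0},
      (∀ F : FGModuleCat.{0} S ⥤ AddCommGrpCat.{0}, IsFP F → Stage (α + 1) F) ↔
        St (α + 1) (⊥ : LL (UF S)) ⊤ := by
    intro α
    constructor
    · intro h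
      exact (hFUS _ (UF S) (α + 1)).1 (h _ hU.out)
    · intro h F hF
      exact (hMOC S).2.2 (Stage (α + 1)) (stage_serre (α + 1)) ((hFUS _ (UF S) (α + 1)).2 h) F hF
  unfold UDl UDim rk
  by_cases hex : ∃ α : Ordinal.{0}, St (α + 1) (⊥ : LL (UF S)) ⊤
  · have hex' : ∃ α : Ordinal.{0}, ∀ F : FGModuleCat.{0} S ⥤ AddCommGrpCat.{0}, IsFP F →
        Stage (α + 1) F := by
      obtain ⟨α, hα⟩ := hex
      exact ⟨α, (key α).2 hα⟩
    rw [if_pos hex, if_pos hex']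
    simp only [key]
  · have hex' : ¬ ∃ α : Ordinal.{0}, ∀ F : FGModuleCat.{0} S ⥤ AddCommGrpCat.{0}, IsFP F →
        Stage (α + 1) F := by
      rintro ⟨α, hα⟩
      exact hex ⟨α, (key α).1 hα⟩
    rw [if_neg hex, if_neg hex']

end Pool.Agent.H8.UB
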