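import Pool.Agent.H8.UB.LAX
import Pool.Agent.H8.UB.MOU
import Pool.Agent.H8.UB.MOC
import Pool.Agent.H33.UB.LAC
import Pool.Agent.H33.UB.LAS
import Pool.Agent.H13.UB.COL
import Pool.Agent.H13.UB.ACL
import Pool.Agent.H13.UB.RIG
import Pool.Agent.H10.UB.CDG
import Pool.Agent.H78.UB.CDE
import Pool.Agent.H78.UB.STZ
import Pool.Agent.H30.UB.CDL
import Pool.Agent.H30.UB.ALE
import Pool.Agent.H30.UB.ALR
import Pool.Agent.H75.UB.CDM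
import Pool.Agent.H75.UB.AUT
import Pool.Agent.H35.UB.LSG
import Pool.Agent.H35.UB.ORB
import Pool.Agent.H35.UB.FCL
import Pool.Agent.H49.UB.LSF
import Pool.Agent.H67.UB.UNB
import Pool.Agent.H60.UB.FIN
import Pool.Agent.H94.UB.ART

/-!
# MP_404602_al: assembly of the two theorems
-/

namespace Pool.Agent.H8.UB

universe w v u

theorem all_MOU : T_MOU := pf_MOU pf_MOC pf_FUS

theorem all_LAC : T_LAC.{v, u} := Pool.Agent.H33.UB.pf_LAC pf_LAB pf_LAB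

theorem all_CDM : T_CDM :=
  Pool.Agent.H75.UB.pf_CDM Pool.Agent.H10.UB.pf_CDG Pool.Agent.H78.UB.pf_CDE
    Pool.Agent.H30.UB.pf_CDL

theorem all_LSG : T_LSG :=
  Pool.Agent.H35.UB.pf_LSG pf_LAB all_LAC Pool.Agent.H13.UB.pf_COL pf_MOC all_MOU
    Pool.Agent.H10.UB.pf_CDG Pool.Agent.H78.UB.pf_CDE Pool.Agent.H30.UB.pf_CDL all_CDM

theorem all_ORB : T_ORB :=
  Pool.Agent.H35.UB.pf_ORB (Pool.Agent.H33.UB.pf_LAS pf_LAB) pf_MOC all_MOU (pf_LAI pf_LAB)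
    Pool.Agent.H10.UB.pf_CDG Pool.Agent.H78.UB.pf_CDE Pool.Agent.H30.UB.pf_CDL all_CDM
    Pool.Agent.H75.UB.pf_AUT

theorem all_LSF : T_LSF :=
  Pool.Agent.H49.UB.pf_LSF all_LSG Pool.Agent.H35.UB.pf_FCL Pool.Agent.H13.UB.pf_RIG pf_MOC
    all_MOU

theorem all_UNB : T_UNB :=
  Pool.Agent.H67.UB.pf_UNB all_ORB all_LSF Pool.Agent.H78.UB.pf_STZ Pool.Agent.H13.UB.pf_RIG

/-- Theorem 1 -/
theorem all_FIN : T_FIN :=
  Pool.Agent.H60.UB.pf_FIN all_UNB Pool.Agent.H30.UB.pf_ALE Pool.Agent.H30.UB.pf_ALR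
    Pool.Agent.H13.UB.pf_RIG pf_MOC all_MOU all_CDM pf_FUM pf_LAB
    (pf_LAX pf_LAB (pf_LAW pf_LAB (pf_LAM pf_LAB (pf_LAI pf_LAB))))

/-- Theorem 2 -/
theorem all_ART : T_ART :=
  Pool.Agent.H94.UB.pf_ART all_LSG Pool.Agent.H13.UB.pf_ACL Pool.Agent.H13.UB.pf_RIG pf_MOC
    all_MOU

end Pool.Agent.H8.UB
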