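import Pool.Agent.H56.UD.Eqv

/-!
# MP_404602_al: definitions for the bounds on the uniserial dimension

`UD R` is the one of `Pool.Agent.H56.UD.Defs`. Here: the rank of a lattice, the lattice of finitely
generated subfunctors, formulas (codes) over a ring, algebras given by structure constants.
-/

open CategoryTheory

namespace Pool.Agent.H8.UB

open Pool.Agent.H56.UDs

universe w v u

/-! ## Ranks of lattices -/

section Lat

variable {L : Type u} [Lattice L]

/-- `St α a b`: there is a chain `a = c_0 ≤ c_1 ≤ .. ≤ c_n = b` such that for every `i` there is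
`β < α` such that for all `x, y` in the interval from `c_i` to `c_(i+1)` one of `St β (x ⊓ y) x`,
`St β (x ⊓ y) y` holds -/
def St (α : Ordinal.{w}) : L → L → Prop :=
  Relation.ReflTransGen fun c d : L => c ≤ d ∧ ∃ β, ∃ _ : β < α,
    ∀ x y, c ≤ x → x ≤ d → c ≤ y → y ≤ d → St β (x ⊓ y) x ∨ St β (x ⊓ y) y
termination_by α

/-- the interval from `c` to `d` is a chain modulo `St β` -/
def Un (β : Ordinal.{w}) (c d : L) : Prop :=
  ∀ x y, c ≤ x → x ≤ d → c ≤ y → y ≤ d → St β (x ⊓ y) x ∨ St β (x ⊓ y) y

/-- the steps of the chains in `St α` -/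
def Sp (α : Ordinal.{w}) (c d : L) : Prop := c ≤ d ∧ ∃ β, β < α ∧ Un β c d

/-- the intervals from `a` to `b` in `L` and from `a'` to `b'` in `L'` are isomorphic -/
def Iso {L' : Type v} [Lattice L'] (a b : L) (a' b' : L') : Prop :=
  ∃ (φ : L → L') (ψ : L' → L),
    (∀ x, a ≤ x → x ≤ b → a' ≤ φ x ∧ φ x ≤ b' ∧ ψ (φ x) = x) ∧
    (∀ y, a' ≤ y → y ≤ b' → a ≤ ψ y ∧ ψ y ≤ b ∧ φ (ψ y) = y) ∧
    (∀ x y, a ≤ x → x ≤ y → y ≤ b → φ x ≤ φ y) ∧
    (∀ x y, a' ≤ x → x ≤ y → y ≤ b' → ψ x ≤ ψ y)

open Classical in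
/-- the rank of a bounded lattice: the least `α` with `St (α + 1) ⊥ ⊤`, or `⊤` -/
noncomputable def rk (L : Type u) [Lattice L] [BoundedOrder L] : WithTop Ordinal.{w} :=
  if ∃ α : Ordinal.{w}, St (α + 1) (⊥ : L) ⊤ then
    ((sInf {α : Ordinal.{w} | St (α + 1) (⊥ : L) ⊤} : Ordinal.{w}) : WithTop Ordinal.{w})
  else ⊤

end Lat

/-! ## The lattice of finitely generated subfunctors -/

section Fun

variable {C : Type u} [Category.{v} C] [Preadditive C]

/-- the finitely generated subfunctors of `F` -/
def LL (F : C ⥤ AddCommGrpCat.{v}) : Type (max u v) := {A : Sub F // A.FG}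

variable [Coh C] (F : C ⥤ AddCommGrpCat.{v}) [h : Fact (IsFP F)]

instance : Lattice (LL F) :=
  Subtype.lattice (fun {_ _} hA hB => haveI := h.out.1; sup_fg hA hB)
    (fun {_ _} hA hB => inf_fg h.out hA hB)

instance : BoundedOrder (LL F) where
  top := ⟨⊤, top_fg h.out⟩
  bot := ⟨⊥, bot_fg h.out⟩
  le_top A := le_top (a := A.1)
  bot_le A := bot_le (a := A.1)

end Fun

/-! ## Modules and formulas -/

section Mod

variable (S : Type) [Ring S]

/-- the forgetful functor -/
def UF : FGModuleCat.{0} S ⥤ AddCommGrpCat.{0} where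
  obj M := AddCommGrpCat.of M
  map f := AddCommGrpCat.ofHom f.hom.hom.toAddMonoidHom
  map_id _ := rfl
  map_comp _ _ := rfl

/-- the uniserial dimension computed with left modules: `UD R = UDl Rᵐᵒᵖ` -/
noncomputable def UDl : WithTop Ordinal.{0} := UDim.{0} (FGModuleCat.{0} S)

/-- formulas over `S`: `∃ y_0 .. y_(n-1), a_j x + ∑ b_(j i) y_i = 0` for all `j < m` -/
structure Cd where
  n : ℕ
  m : ℕ
  a : Fin m → S
  b : Fin m → Fin n → S

variable {S}

/-- `x` satisfies the formula `c` in the module `M` -/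
def Cd.Sat (c : Cd S) (M : Type) [AddCommGroup M] [Module S M] (x : M) : Prop :=
  ∃ y : Fin c.n → M, ∀ j, c.a j • x + ∑ i, c.b j i • y i = 0

/-- the elements of the module `M` satisfying `c` -/
def Cd.grp (c : Cd S) (M : Type) [AddCommGroup M] [Module S M] : AddSubgroup M where
  carrier := {x : M | c.Sat M x}
  zero_mem' := ⟨0, fun j => by simp⟩
  add_mem' := by
    rintro x x' ⟨y, hy⟩ ⟨y', hy'⟩
    refine ⟨y + y', fun j => ?_⟩
    have : c.a j • (x + x') + ∑ i, c.b j i • (y + y') i =
        (c.a j • x + ∑ i, c.b j i • y i) + (c.a j • x' + ∑ i, c.b j i • y' i) := by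
      simp only [smul_add, Pi.add_apply, Finset.sum_add_distrib]
      abel
    rw [this, hy, hy', add_zero]
  neg_mem' := by
    rintro x ⟨y, hy⟩
    refine ⟨-y, fun j => ?_⟩
    have : c.a j • (-x) + ∑ i, c.b j i • (-y) i = -(c.a j • x + ∑ i, c.b j i • y i) := by
      simp only [smul_neg, Pi.neg_apply, Finset.sum_neg_distrib, neg_add]
    rw [this, hy, neg_zero]

/-- the subfunctor of the forgetful functor given by a formula -/
def Cd.fn (c : Cd S) : Sub (UF S) where
  car M := c.grp M
  map_mem := by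
    rintro M N f x ⟨y, hy⟩
    refine ⟨fun i => f.hom.hom (y i), fun j => ?_⟩
    have h := congrArg f.hom.hom (hy j)
    rw [map_zero, map_add, map_smul, map_sum] at h
    simp only [map_smul] at h
    exact h

/-- the matrix condition for `c.fn ≤ d.fn`: in the free module over `x` and the `y_i`, with the
relations of `c`, the element `x` satisfies `d` -/
def MC (c d : Cd S) : Prop :=
  ∃ (p : Fin d.n → S) (q : Fin d.n → Fin c.n → S) (z : Fin d.m → Fin c.m → S),
    (∀ j, d.a j + ∑ i, d.b j i * p i = ∑ l, z j l * c.a l) ∧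
    ∀ j t, ∑ i, d.b j i * q i t = ∑ l, z j l * c.b l t

/-- change of rings -/
def Cd.map {T : Type} [Ring T] (f : S →+* T) (c : Cd S) : Cd T :=
  ⟨c.n, c.m, fun j => f (c.a j), fun j i => f (c.b j i)⟩

/-- the formula for the intersection -/
def Cd.inf (c d : Cd S) : Cd S :=
  ⟨c.n + d.n, c.m + d.m, Fin.append c.a d.a,
    fun j => Fin.append (Fin.addCases (fun i => c.b i) (fun _ => 0) j)
      (Fin.addCases (fun _ => 0) (fun i => d.b i) j)⟩

/-- the formula for the sum: `∃ z y y', z ∈ c (y), x - z ∈ d (y')` -/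
def Cd.sup (c d : Cd S) : Cd S :=
  ⟨(1 + c.n) + d.n, c.m + d.m, Fin.append (fun _ => 0) d.a,
    fun j => Fin.append
      (Fin.append (fun _ => Fin.addCases (fun i => c.a i) (fun i => -d.a i) j)
        (Fin.addCases (fun i => c.b i) (fun _ => 0) j))
      (Fin.addCases (fun _ => 0) (fun i => d.b i) j)⟩

/-- the formula `x = 0` -/
def Cd.bot (S : Type) [Ring S] : Cd S := ⟨0, 1, fun _ => 1, fun _ i => i.elim0⟩

/-- the formula that is always true -/
def Cd.top (S : Type) [Ring S] : Cd S := ⟨0, 0, fun j => j.elim0, fun j => j.elim0⟩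

end Mod

/-! ## Algebras given by structure constants -/

section Alg

/-- structure constants of a (unital, associative) algebra of dimension `n` -/
structure SC (n : ℕ) (K : Type) [Field K] where
  c : Fin n → Fin n → Fin n → K
  u : Fin n → K
  one_mul : ∀ i l, ∑ j, u j * c j i l = if l = i then 1 else 0
  mul_one : ∀ i l, ∑ j, u j * c i j l = if l = i then 1 else 0
  assoc : ∀ i j t l, ∑ s, c i j s * c s t l = ∑ s, c j t s * c i s l

/-- the algebra with the structure constants `s` -/
def Al {n : ℕ} {K : Type} [Field K] (_ : SC n K) : Type := Fin n → K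

/-- change of fields -/
def SC.map {n : ℕ} {K K' : Type} [Field K] [Field K'] (f : K →+* K') (s : SC n K) : SC n K' where
  c i j l := f (s.c i j l)
  u i := f (s.u i)
  one_mul i l := by
    have h := congrArg f (s.one_mul i l)
    rw [map_sum] at h
    simp only [map_mul] at h
    rw [h]
    split_ifs <;> simp
  mul_one i l := by
    have h := congrArg f (s.mul_one i l)
    rw [map_sum] at h
    simp only [map_mul] at h
    rw [h]
    split_ifs <;> simp
  assoc i j t l := by
    have h := congrArg f (s.assoc i j t l)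
    rw [map_sum, map_sum] at h
    simp only [map_mul] at h
    exact h

end Alg

end Pool.Agent.H8.UB
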