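import Pool.Agent.H8.UB.Targets

/-!
# MP_404602_al, row FUM: the lattice of finitely generated subfunctors is modular
-/

open CategoryTheory

namespace Pool.Agent.H8.UB

open Pool.Agent.H56.UDs

universe w v u

section

variable {C : Type u} [Category.{v} C] [Preadditive C] [Coh C]
  {F : C ⥤ AddCommGrpCat.{v}} [h : Fact (IsFP F)]

theorem ll_le {A B : LL F} : A ≤ B ↔ A.1 ≤ B.1 := Iff.rfl
theorem ll_inf (A B : LL F) : (A ⊓ B).1 = A.1 ⊓ B.1 := rfl
theorem ll_sup (A B : LL F) : (A ⊔ B).1 = A.1 ⊔ B.1 := rfl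
theorem ll_bot : (⊥ : LL F).1 = ⊥ := rfl
theorem ll_top : (⊤ : LL F).1 = ⊤ := rfl
theorem ll_ext {A B : LL F} (h : A.1 = B.1) : A = B := Subtype.ext h

instance ll_modular : IsModularLattice (LL F) where
  sup_inf_le_assoc_of_le := by
    intro A B D hAD M x hx
    have h1 : x ∈ (A.1 ⊔ B.1).car M ∧ x ∈ D.1.car M := hx
    obtain ⟨a, ha, b, hb, rfl⟩ := Sub.mem_sup.1 h1.1
    have h2 : b ∈ D.1.car M := by
      have h3 := sub_mem h1.2 (hAD M ha)
      rwa [add_sub_cancel_left] at h3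
    exact Sub.mem_sup.2 ⟨a, ha, b, ⟨hb, h2⟩, rfl⟩

end

theorem pf_FUM : T_FUM.{v, u} := fun _ _ _ _ _ _ => ll_modular

end Pool.Agent.H8.UB
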