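import Pool.Agent.H8.UB.FUM

/-!
# MP_404602_al, row FUQ: intervals and quotients
-/

open CategoryTheory

namespace Pool.Agent.H8.UB

open Pool.Agent.H56.UDs

universe w v u

section

variable {C : Type u} [Category.{v} C] [Preadditive C] {F : C ⥤ AddCommGrpCat.{v}}

/-- the preimage in `F` of a subfunctor of `A / (A ⊓ B)` -/
def qPhi (A B : Sub F) (X : Sub (A.quot B)) : Sub F := (X.comap (A.π B)).map A.ι

/-- the image in `A / (A ⊓ B)` -/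
def qPsi (A B : Sub F) (Y : Sub F) : Sub (A.quot B) := (Y.comap A.ι).map (A.π B)

theorem mem_qPhi {A B : Sub F} {X : Sub (A.quot B)} {M : C} {x : F.obj M} :
    x ∈ (qPhi A B X).car M ↔
      ∃ a : A.fn.obj M, ((A.π B).app M).hom a ∈ X.car M ∧ (A.ι.app M).hom a = x := Iff.rfl

theorem mem_qPsi {A B : Sub F} {Y : Sub F} {M : C} {z : (A.quot B).obj M} :
    z ∈ (qPsi A B Y).car M ↔
      ∃ a : A.fn.obj M, (A.ι.app M).hom a ∈ Y.car M ∧ ((A.π B).app M).hom a = z := Iff.rfl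

theorem qPhi_le {A B : Sub F} {X : Sub (A.quot B)} : qPhi A B X ≤ A := by
  intro M x hx
  obtain ⟨a, _, rfl⟩ := mem_qPhi.1 hx
  exact Subtype.property (p := (· ∈ A.car M)) a

theorem le_qPhi {A B : Sub F} {X : Sub (A.quot B)} : A ⊓ B ≤ qPhi A B X := by
  intro M x hx
  refine mem_qPhi.2 ⟨(⟨x, hx.1⟩ : A.car M), ?_, rfl⟩
  have h : ((A.π B).app M).hom (⟨x, hx.1⟩ : A.car M) = 0 :=
    (Sub.π_zero A B M (⟨x, hx.1⟩ : A.car M)).2 hx.2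
  rw [h]
  exact zero_mem _

theorem qPsi_qPhi {A B : Sub F} {X : Sub (A.quot B)} : qPsi A B (qPhi A B X) = X := by
  refine le_antisymm ?_ ?_
  · intro M z hz
    obtain ⟨a, ha, rfl⟩ := mem_qPsi.1 hz
    obtain ⟨a', ha', h⟩ := mem_qPhi.1 ha
    have : a' = a := A.ι_inj M h
    rwa [this] at ha'
  · intro M z hz
    obtain ⟨a, rfl⟩ := Sub.π_surj A B M z
    exact mem_qPsi.2 ⟨a, mem_qPhi.2 ⟨a, hz, rfl⟩, rfl⟩

theorem qPhi_qPsi {A B Y : Sub F} (h1 : A ⊓ B ≤ Y) (h2 : Y ≤ A) :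
    qPhi A B (qPsi A B Y) = Y := by
  refine le_antisymm ?_ ?_
  · intro M x hx
    obtain ⟨a, ha, rfl⟩ := mem_qPhi.1 hx
    obtain ⟨a', ha', h⟩ := mem_qPsi.1 ha
    have h3 : ((A.π B).app M).hom (a - a') = 0 := by
      rw [map_sub, h, sub_self]
    have h4 := (Sub.π_zero A B M (a - a')).1 h3
    have h5 : (A.ι.app M).hom (a - a') ∈ (A ⊓ B).car M :=
      ⟨Subtype.property (p := (· ∈ A.car M)) (a - a'), h4⟩
    have h6 := h1 M h5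
    rw [map_sub] at h6
    have h7 := add_mem h6 ha'
    rwa [sub_add_cancel] at h7
  · intro M x hx
    exact mem_qPhi.2 ⟨(⟨x, h2 M hx⟩ : A.car M), mem_qPsi.2 ⟨(⟨x, h2 M hx⟩ : A.car M), hx, rfl⟩,
      rfl⟩

theorem qPhi_mono {A B : Sub F} {X Y : Sub (A.quot B)} (h : X ≤ Y) : qPhi A B X ≤ qPhi A B Y := by
  intro M x hx
  obtain ⟨a, ha, rfl⟩ := mem_qPhi.1 hx
  exact mem_qPhi.2 ⟨a, h M ha, rfl⟩

theorem qPsi_mono {A B X Y : Sub F} (h : X ≤ Y) : qPsi A B X ≤ qPsi A B Y := by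
  intro M x hx
  obtain ⟨a, ha, rfl⟩ := mem_qPsi.1 hx
  exact mem_qPsi.2 ⟨a, h M ha, rfl⟩

end

theorem fuq {C : Type u} [Category.{v} C] [Preadditive C] [Coh C]
    (F : C ⥤ AddCommGrpCat.{v}) [hF : Fact (IsFP F)] (A B : LL F)
    [Fact (IsFP (A.1.quot B.1))] : Iso (⊥ : LL (A.1.quot B.1)) ⊤ (A ⊓ B) A := by
  have hA : IsFP A.1.fn := fn_fp hF.out A.2
  have hQ : IsFP (A.1.quot B.1) := quot_fp hF.out A.2 B.2
  refine ⟨fun X => ⟨qPhi A.1 B.1 X.1, map_fg (comap_fg hA hQ X.2)⟩,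
    fun Y => ⟨qPsi A.1 B.1 Y.1, map_fg (comap_fg hA hF.out Y.2)⟩, ?_, ?_, ?_, ?_⟩
  · exact fun X _ _ => ⟨ll_le.2 le_qPhi, ll_le.2 qPhi_le, ll_ext qPsi_qPhi⟩
  · exact fun Y h1 h2 => ⟨bot_le, le_top, ll_ext (qPhi_qPsi h1 h2)⟩
  · exact fun X Y _ h _ => ll_le.2 (qPhi_mono h)
  · exact fun X Y _ h _ => ll_le.2 (qPsi_mono h)

theorem pf_FUQ : T_FUQ.{v, u} := fun _ _ _ _ F _ A B _ => fuq F A B

end Pool.Agent.H8.UB
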