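import Pool.Agent.H8.UB.LAB

/-!
# MP_404602_al, row LAI: isomorphic intervals
-/

namespace Pool.Agent.H8.UB

universe w v u

section

variable {L : Type u} {L' : Type v} [Lattice L] [Lattice L']

theorem iso_symm {a b : L} {a' b' : L'} (h : Iso a b a' b') : Iso a' b' a b := by
  obtain ⟨φ, ψ, h1, h2, h3, h4⟩ := h
  exact ⟨ψ, φ, h2, h1, h4, h3⟩

/-- the intervals within isomorphic intervals -/
theorem iso_sub {a b : L} {a' b' : L'} {φ : L → L'} {ψ : L' → L}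
    (h1 : ∀ x, a ≤ x → x ≤ b → a' ≤ φ x ∧ φ x ≤ b' ∧ ψ (φ x) = x)
    (h2 : ∀ y, a' ≤ y → y ≤ b' → a ≤ ψ y ∧ ψ y ≤ b ∧ φ (ψ y) = y)
    (h3 : ∀ x y, a ≤ x → x ≤ y → y ≤ b → φ x ≤ φ y)
    (h4 : ∀ x y, a' ≤ x → x ≤ y → y ≤ b' → ψ x ≤ ψ y)
    {x' y' : L'} (hx : a' ≤ x') (hxy : x' ≤ y') (hy : y' ≤ b') :
    Iso (ψ x') (ψ y') x' y' := by
  have hx' : φ (ψ x') = x' := (h2 x' hx (hxy.trans hy)).2.2
  have hy' : φ (ψ y') = y' := (h2 y' (hx.trans hxy) hy).2.2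
  have ax : a ≤ ψ x' := (h2 x' hx (hxy.trans hy)).1
  have yb : ψ y' ≤ b := (h2 y' (hx.trans hxy) hy).2.1
  refine ⟨φ, ψ, fun z hz1 hz2 => ⟨?_, ?_, ?_⟩, fun z hz1 hz2 => ⟨?_, ?_, ?_⟩, ?_, ?_⟩
  · have := h3 (ψ x') z ax hz1 (hz2.trans yb)
    rwa [hx'] at this
  · have := h3 z (ψ y') (ax.trans hz1) hz2 yb
    rwa [hy'] at this
  · exact (h1 z (ax.trans hz1) (hz2.trans yb)).2.2
  · exact h4 x' z hx hz1 (hz2.trans hy)
  · exact h4 z y' (hx.trans hz1) hz2 hy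
  · exact (h2 z (hx.trans hz1) (hz2.trans hy)).2.2
  · exact fun z w hz hzw hw => h3 z w (ax.trans hz) hzw (hw.trans yb)
  · exact fun z w hz hzw hw => h4 z w (hx.trans hz) hzw (hw.trans hy)

theorem iso_inf {a b : L} {a' b' : L'} {φ : L → L'} {ψ : L' → L}
    (h1 : ∀ x, a ≤ x → x ≤ b → a' ≤ φ x ∧ φ x ≤ b' ∧ ψ (φ x) = x)
    (h2 : ∀ y, a' ≤ y → y ≤ b' → a ≤ ψ y ∧ ψ y ≤ b ∧ φ (ψ y) = y)
    (h3 : ∀ x y, a ≤ x → x ≤ y → y ≤ b → φ x ≤ φ y)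
    (h4 : ∀ x y, a' ≤ x → x ≤ y → y ≤ b' → ψ x ≤ ψ y)
    {x' y' : L'} (hx : a' ≤ x') (hx' : x' ≤ b') (hy : a' ≤ y') (hy' : y' ≤ b') :
    ψ (x' ⊓ y') = ψ x' ⊓ ψ y' := by
  have h5 := h2 x' hx hx'
  have h6 := h2 y' hy hy'
  have ha : a ≤ ψ x' ⊓ ψ y' := le_inf h5.1 h6.1
  have hb : ψ x' ⊓ ψ y' ≤ b := inf_le_left.trans h5.2.1
  have h7 := h1 _ ha hb
  refine le_antisymm (le_inf (h4 _ _ (le_inf hx hy) inf_le_left hx')
    (h4 _ _ (le_inf hx hy) inf_le_right hy')) ?_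
  have h8 : φ (ψ x' ⊓ ψ y') ≤ x' := by
    have := h3 _ (ψ x') ha inf_le_left h5.2.1
    rwa [h5.2.2] at this
  have h9 : φ (ψ x' ⊓ ψ y') ≤ y' := by
    have := h3 _ (ψ y') ha inf_le_right h6.2.1
    rwa [h6.2.2] at this
  have := h4 _ (x' ⊓ y') h7.1 (le_inf h8 h9) (inf_le_left.trans hx')
  rwa [h7.2.2] at this

theorem un_step {a b : L} {a' b' : L'} {β : Ordinal.{w}}
    (ih : ∀ (c d : L) (c' d' : L'), Iso c d c' d' → St β c d → St β c' d')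
    (h : Iso a b a' b') (hu : Un β a b) : Un β a' b' := by
  obtain ⟨φ, ψ, h1, h2, h3, h4⟩ := h
  intro x' y' hx hx' hy hy'
  have hi := iso_inf h1 h2 h3 h4 hx hx' hy hy'
  have h5 := h2 x' hx hx'
  have h6 := h2 y' hy hy'
  refine (hu (ψ x') (ψ y') h5.1 h5.2.1 h6.1 h6.2.1).imp ?_ ?_
  · rw [← hi]
    exact ih _ _ _ _ (iso_sub h1 h2 h3 h4 (le_inf hx hy) inf_le_left hx')
  · rw [← hi]
    exact ih _ _ _ _ (iso_sub h1 h2 h3 h4 (le_inf hx hy) inf_le_right hy')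

theorem st_iso (α : Ordinal.{w}) : ∀ (a b : L) (a' b' : L'), Iso a b a' b' → St α a b →
    St α a' b' := by
  induction α using WellFoundedLT.induction with
  | ind α ih =>
  intro a b a' b' h hst
  have hab := st_le hst
  have h0 := iso_symm h
  obtain ⟨φ, ψ, h1, h2, h3, h4⟩ := h
  have ha : φ a = a' := by
    have h5 := h1 a le_rfl hab
    have h6 := h2 a' le_rfl (h5.1.trans h5.2.1)
    have h7 := h3 a (ψ a') le_rfl h6.1 h6.2.1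
    rw [h6.2.2] at h7
    exact le_antisymm h7 h5.1
  have hb : φ b = b' := by
    have h5 := h1 b hab le_rfl
    have h6 := h2 b' (h5.1.trans h5.2.1) le_rfl
    have h7 := h3 (ψ b') b h6.1 h6.2.1 le_rfl
    rw [h6.2.2] at h7
    exact le_antisymm h5.2.1 h7
  rw [st_iff] at hst
  have key : ∀ c, Relation.ReflTransGen (Sp α) a c → c ≤ b →
      Relation.ReflTransGen (Sp α) a' (φ c) := by
    intro c hc
    induction hc with
    | refl => intro _; rw [ha]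
    | @tail c d hc hs ih2 =>
      intro hd
      obtain ⟨hcd, β, hβ, hu⟩ := hs
      refine (ih2 (hcd.trans hd)).tail ⟨h3 c d (rtg_le hc) hcd hd, β, hβ, ?_⟩
      exact un_step (ih β hβ) (iso_symm (iso_sub h2 h1 h4 h3 (rtg_le hc) hcd hd)) hu
  have := key b hst le_rfl
  rw [hb] at this
  exact (st_iff _ _ _).2 this

theorem un_iso {a b : L} {a' b' : L'} {β : Ordinal.{w}}
    (h : Iso a b a' b') (hu : Un β a b) : Un β a' b' := un_step (st_iso β) h hu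

end

theorem pf_LAI (_ : T_LAB.{w, u}) : T_LAI.{w, v, u} := fun _ _ _ _ α a b a' b' h hst =>
  st_iso α a b a' b' h hst

end Pool.Agent.H8.UB
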