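import Pool.Agent.H8.UB.FUQ
import Pool.Agent.H8.UB.LAI

/-!
# MP_404602_al, row FUS: the stages are given by the ranks of the lattices
-/

open CategoryTheory

namespace Pool.Agent.H8.UB

open Pool.Agent.H56.UDs

universe w v u

section

variable {C : Type u} [Category.{v} C] [Preadditive C] [Coh C]

/-- `Stage` and `St` for one ordinal -/
def FusP (C : Type u) [Category.{v} C] [Preadditive C] [Coh C] (α : Ordinal.{w}) : Prop :=
  ∀ (F : C ⥤ AddCommGrpCat.{v}) [Fact (IsFP F)], Stage α F ↔ St α (⊥ : LL F) ⊤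

theorem stage_quot {β : Ordinal.{w}} (ih : FusP C β) {F : C ⥤ AddCommGrpCat.{v}}
    [hF : Fact (IsFP F)] (A B : LL F) : Stage β (A.1.quot B.1) ↔ St β (A ⊓ B) A := by
  have : Fact (IsFP (A.1.quot B.1)) := ⟨quot_fp hF.out A.2 B.2⟩
  rw [ih]
  exact ⟨st_iso β _ _ _ _ (fuq F A B), st_iso β _ _ _ _ (iso_symm (fuq F A B))⟩

theorem uni_quot {β : Ordinal.{w}} (ih : FusP C β) {F : C ⥤ AddCommGrpCat.{v}}
    [hF : Fact (IsFP F)] (A B : LL F) (h : A ≤ B) :
    Uni (Stage β) (B.1.quot A.1) ↔ Un β A B := by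
  have hQ : Fact (IsFP (B.1.quot A.1)) := ⟨quot_fp hF.out B.2 A.2⟩
  have h1 : Uni (Stage β) (B.1.quot A.1) ↔ Un β (⊥ : LL (B.1.quot A.1)) ⊤ := by
    constructor
    · rintro ⟨_, h2⟩ X Y _ _ _ _
      refine (h2 X.1 Y.1 (fn_fp hQ.out X.2) (fn_fp hQ.out Y.2)).imp ?_ ?_
      · exact (stage_quot ih X Y).1
      · intro h3
        rw [inf_comm]
        exact (stage_quot ih Y X).1 h3
    · intro h2
      refine ⟨hQ.out, fun X Y hX hY => ?_⟩
      refine (h2 ⟨X, fg_of_fp hX⟩ ⟨Y, fg_of_fp hY⟩ bot_le le_top bot_le le_top).imp ?_ ?_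
      · intro h3
        exact (stage_quot ih (⟨X, fg_of_fp hX⟩ : LL (B.1.quot A.1)) ⟨Y, fg_of_fp hY⟩).2 h3
      · intro h3
        rw [inf_comm] at h3
        exact (stage_quot ih (⟨Y, fg_of_fp hY⟩ : LL (B.1.quot A.1)) ⟨X, fg_of_fp hX⟩).2 h3
  have h2 := fuq F B A
  rw [inf_eq_right.2 h] at h2
  rw [h1]
  exact ⟨un_iso h2, un_iso (iso_symm h2)⟩

theorem fus (α : Ordinal.{w}) : FusP C α := by
  induction α using WellFoundedLT.induction with
  | ind α ih =>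
  intro F hF
  rw [stage_filt, st_iff]
  constructor
  · rintro ⟨_, h⟩
    have key : ∀ B : Sub F, Relation.ReflTransGen (Step (LowUni α)) ⊥ B →
        ∃ hB : B.FG, Relation.ReflTransGen (Sp α) (⊥ : LL F) (⟨B, hB⟩ : LL F) := by
      intro B hB
      induction hB with
      | refl => exact ⟨bot_fg hF.out, Relation.ReflTransGen.refl⟩
      | @tail A B _ hs ih2 =>
        obtain ⟨h1, h2, h3, β, hβ, h4⟩ := hs
        obtain ⟨hA, hc⟩ := ih2
        refine ⟨h3, hc.tail ⟨h1, β, hβ, ?_⟩⟩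
        exact (uni_quot (ih β hβ) (⟨A, hA⟩ : LL F) ⟨B, h3⟩ h1).1 h4
    obtain ⟨_, h⟩ := key ⊤ h
    exact h
  · intro h
    refine ⟨hF.out, ?_⟩
    refine Relation.ReflTransGen.lift (fun X : LL F => X.1) ?_ _ _ h
    rintro A B ⟨hle, β, hβ, hu⟩
    exact ⟨hle, A.2, B.2, β, hβ, (uni_quot (ih β hβ) A B hle).2 hu⟩

end

theorem pf_FUS : T_FUS.{w, v, u} := fun _ _ _ _ F _ α => fus α F

end Pool.Agent.H8.UB
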