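import Pool.Agent.H8.UB.Targets

/-!
# MP_404602_al, row LAB: first properties of the rank of lattices
-/

namespace Pool.Agent.H8.UB

universe w v u

section

variable {L : Type u} [Lattice L]

theorem st_iff (α : Ordinal.{w}) (a b : L) :
    St α a b ↔ Relation.ReflTransGen (Sp α) a b := by
  have h : St α = Relation.ReflTransGen (Sp (L := L) α) := by
    rw [St]
    congr 1
    funext c d
    simp only [Sp, Un, exists_prop]
  rw [h]

theorem rtg_le {α : Ordinal.{w}} {a b : L} (h : Relation.ReflTransGen (Sp α) a b) : a ≤ b := by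
  induction h with
  | refl => exact le_rfl
  | tail _ h ih => exact ih.trans h.1

theorem st_le {α : Ordinal.{w}} {a b : L} (h : St α a b) : a ≤ b := rtg_le ((st_iff α a b).1 h)

theorem st_mono {α β : Ordinal.{w}} {a b : L} (hab : α ≤ β) (h : St α a b) : St β a b := by
  rw [st_iff] at h ⊢
  refine Relation.ReflTransGen.mono ?_ _ _ h
  rintro c d ⟨hcd, γ, hγ, hu⟩
  exact ⟨hcd, γ, hγ.trans_le hab, hu⟩

theorem un_mono {α β : Ordinal.{w}} {a b : L} (hab : α ≤ β) (h : Un α a b) : Un β a b :=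
  fun x y h1 h2 h3 h4 => (h x y h1 h2 h3 h4).imp (st_mono hab) (st_mono hab)

theorem st_step {α β : Ordinal.{w}} {a b : L} (hab : α < β) (hle : a ≤ b) (h : Un α a b) :
    St β a b := by
  rw [st_iff]
  exact Relation.ReflTransGen.single ⟨hle, α, hab, h⟩

theorem st_zero {a b : L} (h : St (0 : Ordinal.{w}) a b) : a = b := by
  rw [st_iff] at h
  induction h with
  | refl => rfl
  | tail _ h ih =>
    obtain ⟨_, γ, hγ, _⟩ := h
    exact absurd hγ (not_lt_of_ge zero_le)

theorem st_pred {α : Ordinal.{w}} {a b : L} (h : St α a b) :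
    a = b ∨ ∃ β, β < α ∧ St (β + 1) a b := by
  rw [st_iff] at h
  induction h with
  | refl => exact Or.inl rfl
  | @tail c d _ h ih =>
    obtain ⟨hcd, γ, hγ, hu⟩ := h
    right
    rcases ih with rfl | ⟨β, hβ, hst⟩
    · exact ⟨γ, hγ, st_step (Order.lt_succ γ) hcd hu⟩
    · refine ⟨max β γ, max_lt hβ hγ, ?_⟩
      rw [st_iff]
      refine Relation.ReflTransGen.tail (b := c) ?_ ?_
      · rw [← st_iff]
        exact st_mono (add_le_add_left (le_max_left β γ) 1) hst
      · exact ⟨hcd, γ, (le_max_right β γ).trans_lt (Order.lt_succ _), hu⟩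

end

theorem pf_LAB : T_LAB.{w, u} := fun _ _ =>
  ⟨st_iff, fun _ _ _ => st_le, fun _ _ => st_zero, fun _ _ _ _ => st_mono,
    fun _ _ _ _ => un_mono, fun _ _ _ _ => st_step, fun _ _ _ => st_pred⟩

end Pool.Agent.H8.UB
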