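import Pool.Agent.H8.UB.LAI

/-!
# MP_404602_al, row LAM: the rank in modular lattices
-/

namespace Pool.Agent.H8.UB

universe w v u

section

variable {L : Type u} [Lattice L]

theorem un_sub {β : Ordinal.{w}} {a b c d : L} (hac : a ≤ c) (hdb : d ≤ b) (h : Un β a b) :
    Un β c d := fun x y h1 h2 h3 h4 =>
  h x y (hac.trans h1) (h2.trans hdb) (hac.trans h3) (h4.trans hdb)

variable [IsModularLattice L]

theorem iso_diam (a b : L) : Iso (a ⊓ b) a b (a ⊔ b) := by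
  refine ⟨fun x => x ⊔ b, fun y => y ⊓ a, fun x h1 h2 => ⟨le_sup_right, sup_le_sup_right h2 b, ?_⟩,
    fun y h1 h2 => ⟨?_, inf_le_right, ?_⟩, fun x y _ h _ => sup_le_sup_right h b,
    fun x y _ h _ => inf_le_inf_right a h⟩
  · change (x ⊔ b) ⊓ a = x
    rw [sup_inf_assoc_of_le b h2, sup_eq_left, inf_comm]
    exact h1
  · rw [inf_comm]
    exact inf_le_inf_right a h1
  · change y ⊓ a ⊔ b = y
    rw [inf_sup_assoc_of_le a h1, inf_eq_left]
    exact h2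

theorem un_sup {β : Ordinal.{w}} {c d : L} (e : L) (hcd : c ≤ d) (h : Un β c d) :
    Un β (c ⊔ e) (d ⊔ e) := by
  have h1 := iso_diam d (c ⊔ e)
  have h2 : d ⊔ (c ⊔ e) = d ⊔ e := by
    rw [← sup_assoc, sup_eq_left.2 hcd]
  rw [h2] at h1
  exact un_iso h1 (un_sub (le_inf hcd le_sup_left) le_rfl h)

theorem un_inf {β : Ordinal.{w}} {c d : L} (e : L) (hcd : c ≤ d) (h : Un β c d) :
    Un β (c ⊓ e) (d ⊓ e) := by
  have h1 := iso_diam (d ⊓ e) c
  have h2 : d ⊓ e ⊓ c = c ⊓ e := by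
    rw [inf_comm, ← inf_assoc, inf_eq_left.2 hcd]
  rw [h2] at h1
  exact un_iso (iso_symm h1) (un_sub le_rfl (sup_le inf_le_left hcd) h)

theorem st_sup {α : Ordinal.{w}} {a b : L} (e : L) (h : St α a b) : St α (a ⊔ e) (b ⊔ e) := by
  rw [st_iff] at h ⊢
  refine Relation.ReflTransGen.lift (fun x => x ⊔ e) ?_ _ _ h
  rintro c d ⟨hcd, β, hβ, hu⟩
  exact ⟨sup_le_sup_right hcd e, β, hβ, un_sup e hcd hu⟩

theorem st_inf {α : Ordinal.{w}} {a b : L} (e : L) (h : St α a b) : St α (a ⊓ e) (b ⊓ e) := by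
  rw [st_iff] at h ⊢
  refine Relation.ReflTransGen.lift (fun x => x ⊓ e) ?_ _ _ h
  rintro c d ⟨hcd, β, hβ, hu⟩
  exact ⟨inf_le_inf_right e hcd, β, hβ, un_inf e hcd hu⟩

end

theorem pf_LAM (_ : T_LAB.{w, u}) (_ : T_LAI.{w, u, u}) : T_LAM.{w, u} :=
  fun _ _ _ _ _ _ e h => ⟨st_sup e h, st_inf e h⟩

end Pool.Agent.H8.UB
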