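import Pool.Agent.H8.UB.LAM

/-!
# MP_404602_al, row LAW: no long combs
-/

namespace Pool.Agent.H8.UB

universe w v u

section

variable {L : Type u} [Lattice L] [IsModularLattice L]

theorem st_sub {β : Ordinal.{w}} {a b c d : L} (h : St β a b) (h1 : a ≤ c) (h2 : c ≤ d)
    (h3 : d ≤ b) : St β c d := by
  have h4 := st_inf d h
  rw [inf_eq_left.2 (h1.trans h2), inf_eq_right.2 h3] at h4
  have h5 := st_sup c h4
  rwa [sup_eq_right.2 h1, sup_eq_left.2 h2] at h5

omit [IsModularLattice L] in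
theorem st_refl (β : Ordinal.{w}) (a : L) : St β a a := by
  rw [st_iff]

omit [IsModularLattice L] in
theorem st_trans {β : Ordinal.{w}} {a b c : L} (h1 : St β a b) (h2 : St β b c) : St β a c := by
  rw [st_iff] at *
  exact h1.trans h2

/-- small modulo -/
def Lq (β : Ordinal.{w}) (x y : L) : Prop := St β (x ⊓ y) x

theorem lq_of_le (β : Ordinal.{w}) {x y : L} (h : x ≤ y) : Lq β x y := by
  rw [Lq, inf_eq_left.2 h]
  exact st_refl _ _

theorem lq_trans {β : Ordinal.{w}} {x y z : L} (h1 : Lq β x y) (h2 : Lq β y z) : Lq β x z := by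
  have h3 := st_inf x h2
  have h4 : St β (y ⊓ z ⊓ x) x := by
    refine st_trans h3 ?_
    rw [inf_comm]
    exact h1
  exact st_sub h4 (le_inf inf_le_right (inf_le_left.trans inf_le_right)) inf_le_left le_rfl

theorem lq_sup {β : Ordinal.{w}} {x y : L} (z : L) (h : Lq β x y) : Lq β (x ⊔ z) (y ⊔ z) :=
  st_sub (st_sup z h) (le_inf (sup_le_sup_right inf_le_left z) (sup_le_sup_right inf_le_right z))
    inf_le_left le_rfl

theorem lq_inf {β : Ordinal.{w}} {x y : L} (z : L) (h : Lq β x y) : Lq β (x ⊓ z) (y ⊓ z) := by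
  have h1 := st_inf z h
  rw [Lq, ← inf_inf_distrib_right]
  exact h1

/-- a largest element of a finite set -/
theorem lq_max {β : Ordinal.{w}} {ι : Type} (s : Finset ι) (Y : ι → L)
    (h : ∀ i ∈ s, ∀ j ∈ s, Lq β (Y i) (Y j) ∨ Lq β (Y j) (Y i)) (hs : s.Nonempty) :
    ∃ i ∈ s, ∀ j ∈ s, Lq β (Y j) (Y i) := by
  classical
  induction s using Finset.induction_on with
  | empty => exact absurd hs Finset.not_nonempty_empty
  | insert a s ha ih =>
    rcases s.eq_empty_or_nonempty with rfl | hs'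
    · exact ⟨a, by simp, fun j hj => by
        rw [Finset.mem_insert] at hj
        rcases hj with rfl | hj
        · exact lq_of_le β le_rfl
        · exact absurd hj (by simp)⟩
    · obtain ⟨i, hi, hm⟩ := ih (fun i hi j hj => h i (Finset.mem_insert_of_mem hi) j
        (Finset.mem_insert_of_mem hj)) hs'
      rcases h i (Finset.mem_insert_of_mem hi) a (Finset.mem_insert_self a s) with h1 | h1
      · refine ⟨a, Finset.mem_insert_self a s, fun j hj => ?_⟩
        rw [Finset.mem_insert] at hj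
        rcases hj with rfl | hj
        · exact lq_of_le β le_rfl
        · exact lq_trans (hm j hj) h1
      · refine ⟨i, Finset.mem_insert_of_mem hi, fun j hj => ?_⟩
        rw [Finset.mem_insert] at hj
        rcases hj with rfl | hj
        · exact h1
        · exact hm j hj

theorem breadth {β : Ordinal.{w}} (c : ℕ → L) (n : ℕ)
    (hc : ∀ i < n, c i ≤ c (i + 1) ∧ Un β (c i) (c (i + 1))) (s : Finset ℕ) (hs : s.card = n + 1)
    (X : ℕ → L) (hX : ∀ i ∈ s, c 0 ≤ X i ∧ X i ≤ c n) :
    ∃ j ∈ s, ∀ u, c 0 ≤ u → (∀ l ∈ s, l ≠ j → X l ≤ u) → Lq β (X j) u := by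
  induction n generalizing s X with
  | zero =>
    obtain ⟨j, rfl⟩ := Finset.card_eq_one.1 hs
    exact ⟨j, by simp, fun u hu _ => lq_of_le β ((hX j (by simp)).2.trans hu)⟩
  | succ n ih =>
    have hne : s.Nonempty := Finset.card_pos.1 (by omega)
    have h0n : ∀ m ≤ n, c 0 ≤ c m := by
      intro m hm
      induction m with
      | zero => exact le_rfl
      | succ m ihm => exact (ihm (by omega)).trans (hc m (by omega)).1
    obtain ⟨i0, hi0, hm⟩ := lq_max (β := β) s (fun i => X i ⊔ c n) (fun i hi j hj => by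
      have h1 := (hc n (by omega)).2 (X i ⊔ c n) (X j ⊔ c n) le_sup_right
        (sup_le (hX i hi).2 (hc n (by omega)).1) le_sup_right
        (sup_le (hX j hj).2 (hc n (by omega)).1)
      refine h1.imp id fun h2 => ?_
      rw [Lq, inf_comm]
      exact h2) hne
    obtain ⟨j, hj, h⟩ := ih (fun i hi => hc i (by omega)) (s.erase i0)
      (by rw [Finset.card_erase_of_mem hi0]; omega) (fun j => c n ⊓ (X j ⊔ X i0))
      (fun i hi => ⟨le_inf (h0n n le_rfl) ((hX i (Finset.mem_of_mem_erase hi)).1.trans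
        le_sup_left), inf_le_left⟩)
    have hj' := Finset.mem_erase.1 hj
    refine ⟨j, hj'.2, fun u hu hl => ?_⟩
    have hi0u : X i0 ≤ u := hl i0 hi0 (Ne.symm hj'.1)
    have h1 : Lq β (c n ⊓ (X j ⊔ X i0)) u := by
      refine h u hu fun l hl' hlj => ?_
      have := Finset.mem_erase.1 hl'
      exact inf_le_right.trans (sup_le (hl l this.2 hlj) hi0u)
    have h2 : Lq β (X j) (X i0 ⊔ c n) := lq_trans (lq_of_le β le_sup_left) (hm j hj'.2)
    have h3 := lq_inf (X j ⊔ X i0) h2
    rw [inf_eq_left.2 (le_sup_left : X j ≤ X j ⊔ X i0), sup_inf_assoc_of_le _ le_sup_right] at h3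
    have h4 := lq_sup (X i0) h1
    rw [sup_eq_left.2 hi0u, sup_comm] at h4
    exact lq_trans h3 h4

theorem comb {β : Ordinal.{w}} (N : ℕ) : ∀ (a b : L), Cmb β N a b → a ≤ b →
    ∃ (q : L) (X : ℕ → L), a ≤ q ∧ q ≤ b ∧ (∀ i < N, q ≤ X i ∧ X i ≤ b) ∧
      ∀ j < N, ∃ u, q ≤ u ∧ u ≤ b ∧ (∀ l < N, l ≠ j → X l ≤ u) ∧ ¬ Lq β (X j) u := by
  induction N with
  | zero =>
    intro a b _ hab
    exact ⟨a, fun _ => a, le_rfl, hab, fun i hi => by omega, fun j hj => by omega⟩
  | succ N ih =>
    rintro a b ⟨x, y, hax, hxb, hay, hyb, hn, hcm⟩ hab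
    obtain ⟨q, X, h1, h2, h3, h4⟩ := ih _ _ hcm inf_le_right
    refine ⟨q, fun i => Nat.casesOn i (x ⊔ q) X, (le_inf hax hay).trans h1, h2.trans hyb, ?_, ?_⟩
    · intro i hi
      cases i with
      | zero => exact ⟨le_sup_right, sup_le hxb (h2.trans hyb)⟩
      | succ i => exact ⟨(h3 i (by omega)).1, (h3 i (by omega)).2.trans hyb⟩
    · intro j hj
      cases j with
      | zero =>
        refine ⟨y, h2, hyb, ?_, ?_⟩
        · intro l hl hl0
          cases l with
          | zero => exact absurd rfl hl0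
          | succ l => exact (h3 l (by omega)).2
        · intro h
          exact hn (lq_trans (lq_of_le β le_sup_left) h : Lq β x y)
      | succ j =>
        obtain ⟨u, hqu, huy, hl, hnot⟩ := h4 j (by omega)
        refine ⟨u ⊔ (x ⊔ q), hqu.trans le_sup_left, sup_le (huy.trans hyb)
          (sup_le hxb (h2.trans hyb)), ?_, ?_⟩
        · intro l hl' hlj
          cases l with
          | zero => exact le_sup_right
          | succ l => exact (hl l (by omega) (by omega)).trans le_sup_left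
        · intro h
          have h5 := lq_inf y h
          have h6 : (u ⊔ (x ⊔ q)) ⊓ y = u := by
            have h7 : u ⊔ (x ⊔ q) = u ⊔ x := by
              rw [sup_comm x q, ← sup_assoc, sup_eq_left.2 hqu]
            rw [h7, sup_inf_assoc_of_le x huy, sup_eq_left]
            exact h1.trans hqu
          rw [h6] at h5
          refine hnot ?_
          have h8 : X j ⊓ y = X j := inf_eq_left.2 (h3 j (by omega)).2
          change Lq β (X j ⊓ y) u at h5
          rwa [h8] at h5

end

theorem law (L : Type u) [Lattice L] [IsModularLattice L] (β : Ordinal.{w}) (c : ℕ → L)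
    (n : ℕ) (hc : ∀ i < n, c i ≤ c (i + 1) ∧ Un β (c i) (c (i + 1))) :
    ¬ Cmb β (n + 1) (c 0) (c n) := by
  intro h
  have h0n : ∀ m ≤ n, c 0 ≤ c m := by
    intro m hm
    induction m with
    | zero => exact le_rfl
    | succ m ihm => exact (ihm (by omega)).trans (hc m (by omega)).1
  obtain ⟨q, X, h1, _, h3, h4⟩ := comb (n + 1) (c 0) (c n) h (h0n n le_rfl)
  obtain ⟨j, hj, h5⟩ := breadth c n hc (Finset.range (n + 1)) (Finset.card_range _) X
    (fun i hi => ⟨h1.trans (h3 i (Finset.mem_range.1 hi)).1, (h3 i (Finset.mem_range.1 hi)).2⟩)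
  obtain ⟨u, h6, _, h7, h8⟩ := h4 j (Finset.mem_range.1 hj)
  exact h8 (h5 u (h1.trans h6) fun l hl hlj => h7 l (Finset.mem_range.1 hl) hlj)

theorem pf_LAW (_ : T_LAB.{w, u}) (_ : T_LAM.{w, u}) : T_LAW.{w, u} := fun L _ _ β c n hc =>
  law L β c n hc

end Pool.Agent.H8.UB
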