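import Pool.Agent.H8.UB.LAW

/-!
# MP_404602_al, row LAX: the rank of a sublattice
-/

namespace Pool.Agent.H8.UB

universe w v u

theorem chain_seq {L : Type v} [Lattice L] {γ : Ordinal.{w}} {a b : L}
    (h : Relation.ReflTransGen (Sp γ) a b) :
    ∃ (n : ℕ) (c : ℕ → L), c 0 = a ∧ c n = b ∧
      (n = 0 ∨ ∃ β, β < γ ∧ ∀ i < n, c i ≤ c (i + 1) ∧ Un β (c i) (c (i + 1))) := by
  induction h with
  | refl => exact ⟨0, fun _ => a, rfl, rfl, Or.inl rfl⟩
  | @tail d d' _ hs ih =>
    obtain ⟨n, c, h0, hn, h⟩ := ih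
    obtain ⟨hle, δ, hδ, hu⟩ := hs
    obtain ⟨c', hc1, hc2⟩ : ∃ c' : ℕ → L, (∀ i ≤ n, c' i = c i) ∧ c' (n + 1) = d' :=
      ⟨fun i => if i ≤ n then c i else d', fun i hi => if_pos hi, if_neg (by omega)⟩
    refine ⟨n + 1, c', (hc1 0 (Nat.zero_le n)).trans h0, hc2, Or.inr ?_⟩
    rcases h with rfl | ⟨β, hβ, hc⟩
    · refine ⟨δ, hδ, fun i hi => ?_⟩
      obtain rfl : i = 0 := by omega
      rw [hc1 0 le_rfl, hc2, hn]
      exact ⟨hle, hu⟩
    · refine ⟨max β δ, max_lt hβ hδ, fun i hi => ?_⟩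
      by_cases hin : i = n
      · subst hin
        rw [hc1 i le_rfl, hc2, hn]
        exact ⟨hle, un_mono (le_max_right _ _) hu⟩
      · rw [hc1 i (by omega), hc1 (i + 1) (by omega)]
        exact ⟨(hc i (by omega)).1, un_mono (le_max_left _ _) (hc i (by omega)).2⟩

theorem lax (M : Type u) (L : Type v) [Lattice M] [Lattice L] [IsModularLattice L]
    (e : M → L) (he : ∀ x y, e (x ⊓ y) = e x ⊓ e y) (hle : ∀ x y, e x ≤ e y ↔ x ≤ y)
    (γ : Ordinal.{w}) : ∀ a b : M, St γ (e a) (e b) → St (Ordinal.omega0 * γ) a b := by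
  induction γ using WellFoundedLT.induction with
  | ind γ ih =>
  intro a b hst
  have hab : a ≤ b := (hle a b).1 (st_le hst)
  obtain ⟨n, c, h0, hn, h⟩ := chain_seq ((st_iff _ _ _).1 hst)
  rcases h with rfl | ⟨β, hβ, hc⟩
  · have : a = b := by
      refine le_antisymm hab ((hle b a).1 (le_of_eq ?_))
      rw [← h0, ← hn]
    rw [this]
    exact st_refl _ _
  · have hno := law L β c n hc
    rw [h0, hn] at hno
    have key : ∀ N : ℕ, ∀ a b : M, a ≤ b → ¬ Cmb β (N + 1) (e a) (e b) →
        St (Ordinal.omega0 * β + (N : Ordinal.{w})) a b := by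
      intro N
      induction N with
      | zero =>
        intro a b hab h
        rw [Nat.cast_zero, add_zero]
        refine ih β hβ a b ?_
        by_contra hcon
        refine h ⟨e b, e a, (hle a b).2 hab, le_rfl, le_rfl, (hle a b).2 hab, ?_, trivial⟩
        rwa [inf_eq_right.2 ((hle a b).2 hab)]
      | succ N ihN =>
        intro a b hab h
        refine st_step (α := Ordinal.omega0 * β + (N : Ordinal.{w})) ?_ hab ?_
        · refine (add_lt_add_iff_left _).2 ?_
          exact_mod_cast Nat.lt_succ_self N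
        · intro u v hau hub hav hvb
          by_cases hu : St β (e u ⊓ e v) (e u)
          · left
            rw [← he] at hu
            exact st_mono le_self_add (ih β hβ _ _ hu)
          · right
            refine ihN _ _ inf_le_right fun hcm => h ?_
            rw [he] at hcm
            exact ⟨e u, e v, (hle _ _).2 hau, (hle _ _).2 hub, (hle _ _).2 hav, (hle _ _).2 hvb,
              hu, hcm⟩
    refine st_mono ?_ (key n a b hab hno)
    calc Ordinal.omega0 * β + (n : Ordinal.{w}) ≤ Ordinal.omega0 * β + Ordinal.omega0 :=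
          add_le_add_right (Ordinal.natCast_lt_omega0 n).le _
      _ = Ordinal.omega0 * (β + 1) := by rw [mul_add, mul_one]
      _ ≤ Ordinal.omega0 * γ := mul_le_mul_right (Order.succ_le_of_lt hβ) _

theorem pf_LAX (_ : T_LAB.{w, v}) (_ : T_LAW.{w, v}) : T_LAX.{w, v, u} :=
  fun M L _ _ _ e he hle γ a b h => lax M L e he hle γ a b h

end Pool.Agent.H8.UB
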