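import Pool.Agent.H8.UB.Alg

/-!
# MP_404602_al: the targets of the board
-/

open CategoryTheory TensorProduct

namespace Pool.Agent.H8.UB

open Pool.Agent.H56.UDs

universe w v u

/-! ## Lattices -/

/-- combs -/
def Cmb {L : Type u} [Lattice L] (β : Ordinal.{w}) : ℕ → L → L → Prop
  | 0, _, _ => True
  | n + 1, a, b => ∃ x y, a ≤ x ∧ x ≤ b ∧ a ≤ y ∧ y ≤ b ∧ ¬ St β (x ⊓ y) x ∧ Cmb β n (x ⊓ y) y

def T_LAB : Prop := ∀ (L : Type u) [Lattice L],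
  (∀ (α : Ordinal.{w}) (a b : L), St α a b ↔ Relation.ReflTransGen (Sp α) a b) ∧
  (∀ (α : Ordinal.{w}) (a b : L), St α a b → a ≤ b) ∧
  (∀ a b : L, St (0 : Ordinal.{w}) a b → a = b) ∧
  (∀ (α β : Ordinal.{w}) (a b : L), α ≤ β → St α a b → St β a b) ∧
  (∀ (α β : Ordinal.{w}) (a b : L), α ≤ β → Un α a b → Un β a b) ∧
  (∀ (α β : Ordinal.{w}) (a b : L), α < β → a ≤ b → Un α a b → St β a b) ∧
  (∀ (α : Ordinal.{w}) (a b : L), St α a b → a = b ∨ ∃ β, β < α ∧ St (β + 1) a b)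

def T_LAI : Prop := ∀ (L : Type u) (L' : Type v) [Lattice L] [Lattice L'] (α : Ordinal.{w})
  (a b : L) (a' b' : L'), Iso a b a' b' → St α a b → St α a' b'

def T_LAM : Prop := ∀ (L : Type u) [Lattice L] [IsModularLattice L] (α : Ordinal.{w}) (a b e : L),
  St α a b → St α (a ⊔ e) (b ⊔ e) ∧ St α (a ⊓ e) (b ⊓ e)

def T_LAS : Prop := ∀ (L : Type u) [Lattice L] [BoundedOrder L] (ι : Type) [Countable ι]
  (f : L → L → ι), (∀ a b a' b' : L, f a b = f a' b' → ∀ β : Ordinal.{0}, St β a b → St β a' b') →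
  rk.{0} L = ⊤ ∨ ∃ α : Ordinal.{0}, α.card ≤ Cardinal.aleph0 ∧ rk.{0} L = α

def T_LAC : Prop := ∀ (M : Type u) (L : Type v) [Lattice M] [Lattice L] (e : M → L)
  (B : Set Ordinal.{0}) (π : Ordinal.{0} → Ordinal.{0}),
  (∀ x y, e (x ⊓ y) = e x ⊓ e y) → (∀ x y, e x ≤ e y ↔ x ≤ y) →
  (∀ β ∈ B, ∀ γ ∈ B, β < γ → π β < π γ) →
  (∀ β ∈ B, ∀ γ', γ' < π β → ∃ γ ∈ B, γ < β ∧ π γ = γ') →
  (∀ β ∈ B, ∀ c d : M, c ≤ d → ¬ Un β (e c) (e d) → ∃ x y, c ≤ x ∧ x ≤ d ∧ c ≤ y ∧ y ≤ d ∧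
    ¬ St β (e (x ⊓ y)) (e x) ∧ ¬ St β (e (x ⊓ y)) (e y)) →
  (∀ β ∈ B, ∀ c d : M, St β (e c) (e d) →
    Relation.ReflTransGen (fun a b : M => a ≤ b ∧ ∃ γ ∈ B, γ < β ∧ Un γ (e a) (e b)) c d) →
  ∀ β ∈ B, ∀ c d : M, (St (π β) c d ↔ St β (e c) (e d))

def T_COL : Prop := ∀ B : Set Ordinal.{0}, ∃ π : Ordinal.{0} → Ordinal.{0},
  (∀ β ∈ B, ∀ γ ∈ B, β < γ → π β < π γ) ∧
  (∀ β ∈ B, ∀ γ', γ' < π β → ∃ γ ∈ B, γ < β ∧ π γ = γ') ∧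
  (∀ β, π β ≤ β) ∧ (B.Countable → ∀ β ∈ B, (π β).card ≤ Cardinal.aleph0) ∧
  ∀ γ β, (∀ δ, δ < γ → δ ∈ B) → γ ≤ β → γ ≤ π β

def T_LAW : Prop := ∀ (L : Type u) [Lattice L] [IsModularLattice L] (β : Ordinal.{w}) (c : ℕ → L)
  (n : ℕ), (∀ i < n, c i ≤ c (i + 1) ∧ Un β (c i) (c (i + 1))) → ¬ Cmb β (n + 1) (c 0) (c n)

def T_LAX : Prop := ∀ (M : Type u) (L : Type v) [Lattice M] [Lattice L] [IsModularLattice L]
  (e : M → L), (∀ x y, e (x ⊓ y) = e x ⊓ e y) → (∀ x y, e x ≤ e y ↔ x ≤ y) →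
  ∀ (γ : Ordinal.{w}) (a b : M), St γ (e a) (e b) → St (Ordinal.omega0 * γ) a b

/-! ## Functors -/

/-- a finitely generated subfunctor as an element of `LL F` -/
def mkLL {C : Type u} [Category.{v} C] [Preadditive C] {F : C ⥤ AddCommGrpCat.{v}} (A : Sub F)
    (h : A.FG) : LL F := ⟨A, h⟩

def T_FUM : Prop := ∀ (C : Type u) [Category.{v} C] [Preadditive C] [Coh C]
  (F : C ⥤ AddCommGrpCat.{v}) [Fact (IsFP F)], IsModularLattice (LL F)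

def T_FUI : Prop := ∀ (C : Type u) [Category.{v} C] [Preadditive C] [Coh C]
  (F G : C ⥤ AddCommGrpCat.{v}) [Fact (IsFP F)] [Fact (IsFP G)],
  (∀ i : G ⟶ F, (∀ M, Function.Injective (i.app M).hom) →
    ∃ hA : ((⊤ : Sub G).map i).FG, Iso (⊥ : LL G) ⊤ (⊥ : LL F) (mkLL ((⊤ : Sub G).map i) hA)) ∧
  (∀ p : F ⟶ G, (∀ M, Function.Surjective (p.app M).hom) →
    ∃ hA : ((⊥ : Sub G).comap p).FG, Iso (⊥ : LL G) ⊤ (mkLL ((⊥ : Sub G).comap p) hA) ⊤)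

def T_FUQ : Prop := ∀ (C : Type u) [Category.{v} C] [Preadditive C] [Coh C]
  (F : C ⥤ AddCommGrpCat.{v}) [Fact (IsFP F)] (A B : LL F) [Fact (IsFP (A.1.quot B.1))],
  Iso (⊥ : LL (A.1.quot B.1)) ⊤ (A ⊓ B) A

def T_FUS : Prop := ∀ (C : Type u) [Category.{v} C] [Preadditive C] [Coh C]
  (F : C ⥤ AddCommGrpCat.{v}) [Fact (IsFP F)] (α : Ordinal.{w}),
  Stage α F ↔ St α (⊥ : LL F) ⊤

/-! ## Modules -/

def T_MOC : Prop := ∀ (S : Type) [Ring S], Coh (FGModuleCat.{0} S) ∧ IsFP (UF S) ∧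
  ∀ 𝒮 : (FGModuleCat.{0} S ⥤ AddCommGrpCat.{0}) → Prop, IsSerre 𝒮 → 𝒮 (UF S) →
    ∀ F, IsFP F → 𝒮 F

def T_MOU : Prop := ∀ (S : Type) [Ring S] [Coh (FGModuleCat.{0} S)] [Fact (IsFP (UF S))],
  UDl S = rk.{0} (LL (UF S))

def T_RIG : Prop := ∀ (S T : Type) [Ring S] [Ring T], (S ≃+* T) → UDl S = UDl T

def T_CDG : Prop := ∀ (S : Type) [Ring S],
  (∀ c : Cd S, c.fn.FG) ∧ ∀ c d : Cd S, c.fn ≤ d.fn ↔ MC c d

def T_CDE : Prop := ∀ (S : Type) [Ring S] [IsNoetherianRing S] (A : Sub (UF S)), A.FG →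
  ∃ c : Cd S, c.fn = A

def T_CDL : Prop := ∀ (S : Type) [Ring S],
  (∀ c d : Cd S, (c.inf d).fn = c.fn ⊓ d.fn) ∧ (∀ c d : Cd S, (c.sup d).fn = c.fn ⊔ d.fn) ∧
  (Cd.bot S).fn = ⊥ ∧ (Cd.top S).fn = ⊤ ∧
  ∀ (T : Type) [Ring T] (f : S →+* T), (∀ c d : Cd S, (c.inf d).map f = (c.map f).inf (d.map f)) ∧
    (∀ c d : Cd S, (c.sup d).map f = (c.map f).sup (d.map f)) ∧
    (Cd.bot S).map f = Cd.bot T ∧ (Cd.top S).map f = Cd.top T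

def T_CDM : Prop := ∀ (S T : Type) [Ring S] [Ring T] [IsNoetherianRing S]
  [Coh (FGModuleCat.{0} S)] [Fact (IsFP (UF S))] [Coh (FGModuleCat.{0} T)] [Fact (IsFP (UF T))]
  (f : S →+* T), (∀ c d : Cd S, MC (c.map f) (d.map f) → MC c d) →
  ∃ e : LL (UF S) → LL (UF T), (∀ x y, e (x ⊓ y) = e x ⊓ e y) ∧ (∀ x y, e (x ⊔ y) = e x ⊔ e y) ∧
    (∀ x y, e x ≤ e y ↔ x ≤ y) ∧ e ⊥ = ⊥ ∧ e ⊤ = ⊤ ∧
    ∀ c : Cd S, ∃ h h', e (mkLL c.fn h) = mkLL (c.map f).fn h'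

/-! ## Algebras -/

def T_ALE : Prop := (∀ (K : Type) [Field K] (R : Type) [Ring R] [Algebra K R] [Module.Finite K R],
    ∃ (n : ℕ) (s : SC n K), Nonempty (R ≃ₐ[K] Al s)) ∧
  ∀ (k K : Type) [Field k] [Field K] [Algebra k K] (R : Type) [Ring R] [Algebra k R] (n : ℕ)
    (s : SC n k), Nonempty (Rᵐᵒᵖ ≃ₐ[k] Al s) →
    Nonempty ((K ⊗[k] R)ᵐᵒᵖ ≃+* Al (s.map (algebraMap k K)))

def T_ALR : Prop := ∀ (k K : Type) [Field k] [Field K] (f : k →+* K) (n : ℕ) (s : SC n k)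
  (c d : Cd (Al s)), MC (c.map (alMap s f)) (d.map (alMap s f)) → MC c d

def T_AUT : Prop := ∀ (K : Type) [Field K] [IsAlgClosed K], ¬ Countable K → ∀ (N : ℕ)
  (x y : Fin N → K), (∀ P : MvPolynomial (Fin N) ℤ,
    MvPolynomial.aeval x P = 0 ↔ MvPolynomial.aeval y P = 0) →
  ∃ σ : K ≃+* K, ∀ i, σ (x i) = y i

def T_ORB : Prop := ∀ (K : Type) [Field K] [IsAlgClosed K] (n : ℕ) (s : SC n K),
  UDl (Al s) = ⊤ ∨ ∃ α : Ordinal.{0}, α.card ≤ Cardinal.aleph0 ∧ UDl (Al s) = α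

/-! ## Countable subrings -/

/-- `Φ` maps countable sets to countable sets -/
def CP {S : Type} (Φ : Set S → Set S) : Prop := ∀ A, A.Countable → (Φ A).Countable

/-- `S₀` is closed under `Φ` (applied to finite subsets) -/
def Cl {S : Type} [Ring S] (Φ : Set S → Set S) (S₀ : Subring S) : Prop :=
  ∀ F : Finset S, (F : Set S) ⊆ S₀ → Φ F ⊆ S₀

def T_LSG : Prop := ∀ (S : Type) [Ring S] [IsNoetherianRing S] [Coh (FGModuleCat.{0} S)]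
  [Fact (IsFP (UF S))] (ρ : Ordinal.{0}), rk.{0} (LL (UF S)) = ρ →
  ∀ X : Set Ordinal.{0}, X.Countable → (∀ ξ ∈ X, ξ < ρ) → ∀ Φ : Set S → Set S, CP Φ →
  ∃ S₀ : Subring S, (S₀ : Set S).Countable ∧ Cl Φ S₀ ∧ (IsNoetherianRing S₀ →
    ∃ ρ' : Ordinal.{0}, UDl S₀ = ρ' ∧ ρ'.card ≤ Cardinal.aleph0 ∧ ρ' ≤ ρ ∧
      ∀ γ, γ ≤ ρ → (∀ δ, δ < γ → δ ∈ X) → γ ≤ ρ')

/-- artin algebras: finitely generated modules over a commutative artinian subring of the centre -/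
def IsArtinAlg (R : Type) [Ring R] : Prop :=
  ∃ K : Subring R, K ≤ Subring.center R ∧ IsArtinianRing K ∧ Module.Finite K R

def T_ACL : Prop := ∀ (S : Type) [Ring S], IsArtinAlg S → ∃ Φ : Set S → Set S, CP Φ ∧
  ∀ S₀ : Subring S, Cl Φ S₀ → IsArtinAlg S₀ ∧ IsNoetherianRing S₀

def T_FCL : Prop := ∀ (K : Type) [Field K] [IsAlgClosed K] (n : ℕ) (s : SC n K), 0 < n →
  ∃ Φ : Set (Al s) → Set (Al s), CP Φ ∧ ∀ S₀ : Subring (Al s), (S₀ : Set (Al s)).Countable →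
    Cl Φ S₀ → ∃ (K₀ : Type) (_ : Field K₀) (_ : IsAlgClosed K₀) (_ : Countable K₀) (s₀ : SC n K₀),
      Nonempty (S₀ ≃+* Al s₀)

def T_LSF : Prop := ∀ (K : Type) [Field K] [IsAlgClosed K] (n : ℕ) (s : SC n K)
  (α : Ordinal.{0}), α.card ≤ Cardinal.aleph0 → UDl (Al s) = α →
  ∃ (K₀ : Type) (_ : Field K₀) (_ : IsAlgClosed K₀) (_ : Countable K₀) (s₀ : SC n K₀),
    UDl (Al s₀) = α

def T_STZ : Prop := ∃ (I : Type) (_ : Countable I) (F : I → Type) (_ : ∀ i, Field (F i))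
  (_ : ∀ i, Countable (F i)), ∀ (K₀ : Type) [Field K₀] [IsAlgClosed K₀] [Countable K₀],
    ∃ i, Nonempty (K₀ ≃+* F i)

def T_UNB : Prop := ∃ β : Ordinal.{0}, β.card ≤ Cardinal.aleph0 ∧
  ∀ (K : Type) [Field K] [IsAlgClosed K] (n : ℕ) (s : SC n K),
    UDl (Al s) = ⊤ ∨ ∃ α : Ordinal.{0}, α < β ∧ UDl (Al s) = α

/-! ## The two theorems -/

/-- Theorem 1 -/
def T_FIN : Prop := ∃ β : Ordinal.{0}, β.card ≤ Cardinal.aleph0 ∧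
  (∀ (k : Type) [Field k] (R : Type) [Ring R] [Algebra k R] [Module.Finite k R],
    UD (AlgebraicClosure k ⊗[k] R) = ⊤ ∨ ∃ α : Ordinal.{0}, α < β ∧ UD R = α) ∧
  ∀ (k : Type) [Field k] [IsAlgClosed k] (R : Type) [Ring R] [Algebra k R] [Module.Finite k R],
    UD R = ⊤ ∨ ∃ α : Ordinal.{0}, α < β ∧ UD R = α

/-- Theorem 2 -/
def T_ART : Prop := ∀ (R : Type) [Ring R], IsArtinAlg R → ∀ ρ : Ordinal.{0}, UD R = ρ →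
  (ρ.card ≤ Cardinal.aleph0 → ∃ (R₀ : Type) (_ : Ring R₀) (_ : Countable R₀), IsArtinAlg R₀ ∧
    UD R₀ = ρ) ∧
  ∀ γ : Ordinal.{0}, γ ≤ ρ → γ.card ≤ Cardinal.aleph0 →
    ∃ (R₀ : Type) (_ : Ring R₀) (_ : Countable R₀) (ρ₀ : Ordinal.{0}), IsArtinAlg R₀ ∧
      UD R₀ = ρ₀ ∧ γ ≤ ρ₀ ∧ ρ₀.card ≤ Cardinal.aleph0

end Pool.Agent.H8.UB
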